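import Pool.Agent.Lib.MP_62f119_co.Final

namespace Pool.Agent.Results.MP_62f119_co.LaurentPositive

open Pool.Agent.Lib.MP_62f119_co

/-- `S` is a Laurent polynomial in `q = X` with integer coefficients `c e`, for every integer `j`,
and its coefficients are non-negative when `0 ≤ j ≤ m`. -/
theorem result (m : ℕ) (hm : 1 ≤ m) (n : ℕ → ℕ) (hn : ∀ i, 1 ≤ i → i ≤ m → 0 < n i)
    (hc : n (m + 1) = n 1) (j : ℤ) (a r : ℕ) (ha : a ≤ n 1) :
    ∃ c : ℤ →₀ ℤ, cycS m n j a r = c.sum (fun e t => (t : RatFunc ℚ) * RatFunc.X ^ e) ∧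
      (0 ≤ j → j ≤ m → ∀ e, 0 ≤ c e) :=
  main m hm n hn hc j a r ha

end Pool.Agent.Results.MP_62f119_co.LaurentPositive
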